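import Pool.Agent.H.MP_4bdd60_an.G2a

/-!
# MP_4bdd60_an, loops: extension of an open map to a point with small frontiers round it

PROOF. As `ext_at` in G2.lean (copy it), with another connected set `P` for `ext_step`. Given `N` and `N'` with
`closure N' ⊆ N`, `N` bounded: on the ray `t ↦ a + t`, `t ≥ 0`, let `t1` be the first `t` with `a + t ∉ N` (`N` is open and
bounded), so `a + t1 ∈ closure N \ N` and `a + t ∈ N` for `0 ≤ t < t1`; let `t2` be the last `t ∈ [0, t1]` with `a + t ∈ closure N'`; then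
`a + t2 ∈ closure N' \ N'`, and `a + t ∉ N'` for `t2 ≤ t ≤ t1`. Take for `P` the image of `Icc t2 t1`.
-/

set_option autoImplicit false

open Set Filter Topology Metric

namespace Pool.Agent.H.MP_4bdd60_an.LP

/-- the ray from `a` to the right between `N'` and the complement of `N` -/
private theorem Ext2_ray {a : ℂ} {N N' : Set ℂ} (hN : IsOpen N) (hN' : IsOpen N') (ha : a ∈ N')
    (hNN : closure N' ⊆ N) {r : ℝ} (hr : N ⊆ closedBall a r) :
    ∃ P : Set ℂ, IsPreconnected P ∧ P ⊆ closure N \ N' ∧ (P ∩ (closure N \ N)).Nonempty ∧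
      (P ∩ (closure N' \ N')).Nonempty := by
  obtain ⟨g, hg⟩ : ∃ g : ℝ → ℂ, ∀ t, g t = a + t := ⟨fun t => a + t, fun _ => rfl⟩
  have hgc : Continuous g := by
    have : g = fun t : ℝ => a + (t : ℂ) := funext hg
    rw [this]
    fun_prop
  have hg0 : g 0 = a := by rw [hg]; simp
  have haN : a ∈ N := hNN (subset_closure ha)
  -- the first exit from `N`
  obtain ⟨S, hS⟩ : ∃ S : Set ℝ, S = Ici 0 ∩ g ⁻¹' Nᶜ := ⟨_, rfl⟩
  have hSc : IsClosed S := by
    rw [hS]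
    exact isClosed_Ici.inter (hN.isClosed_compl.preimage hgc)
  have hSn : S.Nonempty := by
    refine ⟨|r| + 1, ?_⟩
    rw [hS]
    refine ⟨mem_Ici.2 (by positivity), fun h => ?_⟩
    have h1 := hr h
    rw [mem_closedBall, hg, dist_eq_norm, add_sub_cancel_left, Complex.norm_real,
      Real.norm_eq_abs, abs_of_nonneg (by positivity : (0 : ℝ) ≤ |r| + 1)] at h1
    linarith [le_abs_self r]
  have hSb : BddBelow S := ⟨0, fun t ht => by
    rw [hS] at ht
    exact ht.1⟩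
  obtain ⟨t1, ht1⟩ : ∃ t1, t1 = sInf S := ⟨_, rfl⟩
  have h1S : t1 ∈ S := by
    rw [ht1]
    exact hSc.csInf_mem hSn hSb
  have h1m : 0 ≤ t1 ∧ g t1 ∉ N := by
    rw [hS] at h1S
    exact h1S
  have h10 : 0 < t1 := by
    refine lt_of_le_of_ne h1m.1 fun h => h1m.2 ?_
    rw [← h, hg0]
    exact haN
  have h1in : ∀ t, 0 ≤ t → t < t1 → g t ∈ N := by
    intro t h0 h1
    by_contra h2
    rw [ht1] at h1
    refine notMem_of_lt_csInf h1 hSb ?_
    rw [hS]
    exact ⟨h0, h2⟩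
  have h1cl : g t1 ∈ closure N := by
    refine map_mem_closure hgc (s := Ico 0 t1) ?_ fun t ht => h1in t ht.1 ht.2
    rw [closure_Ico h10.ne]
    exact right_mem_Icc.2 h10.le
  -- the last time in `closure N'`
  obtain ⟨W, hW⟩ : ∃ W : Set ℝ, W = Icc 0 t1 ∩ g ⁻¹' closure N' := ⟨_, rfl⟩
  have hWc : IsClosed W := by
    rw [hW]
    exact isClosed_Icc.inter (isClosed_closure.preimage hgc)
  have hWn : W.Nonempty := by
    refine ⟨0, ?_⟩
    rw [hW]
    refine ⟨left_mem_Icc.2 h10.le, ?_⟩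
    rw [mem_preimage, hg0]
    exact subset_closure ha
  have hWb : BddAbove W := ⟨t1, fun t ht => by
    rw [hW] at ht
    exact ht.1.2⟩
  obtain ⟨t2, ht2⟩ : ∃ t2, t2 = sSup W := ⟨_, rfl⟩
  have h2W : t2 ∈ W := by
    rw [ht2]
    exact hWc.csSup_mem hWn hWb
  have h2m : t2 ∈ Icc 0 t1 ∧ g t2 ∈ closure N' := by
    rw [hW] at h2W
    exact h2W
  have h2out : ∀ t, t2 < t → t ≤ t1 → g t ∉ closure N' := by
    intro t h0 h1 h2
    rw [ht2] at h0
    refine notMem_of_csSup_lt h0 hWb ?_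
    rw [hW]
    rw [← ht2] at h0
    exact ⟨⟨h2m.1.1.trans h0.le, h1⟩, h2⟩
  have h21 : t2 < t1 := by
    refine lt_of_le_of_ne h2m.1.2 fun h => h1m.2 ?_
    rw [← h]
    exact hNN h2m.2
  have h2N : g t2 ∉ N' := by
    intro h
    have h3 : g ⁻¹' N' ∈ 𝓝 t2 := (hN'.preimage hgc).mem_nhds h
    have h4 : g ⁻¹' N' ∈ 𝓝[>] t2 := mem_nhdsWithin_of_mem_nhds h3
    obtain ⟨t, ht, ht'⟩ := Filter.nonempty_of_mem (Filter.inter_mem h4 (Ioc_mem_nhdsGT h21))
    exact h2out t ht'.1 ht'.2 (subset_closure ht)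
  refine ⟨g '' Icc t2 t1, isPreconnected_Icc.image g hgc.continuousOn, ?_,
    ⟨g t1, ⟨t1, right_mem_Icc.2 h21.le, rfl⟩, h1cl, h1m.2⟩,
    ⟨g t2, ⟨t2, left_mem_Icc.2 h21.le, rfl⟩, h2m.2, h2N⟩⟩
  rintro x ⟨t, ht, rfl⟩
  constructor
  · rcases lt_or_eq_of_le ht.2 with h | h
    · exact subset_closure (h1in t (h2m.1.1.trans ht.1) h)
    · rw [h]
      exact h1cl
  · rcases lt_or_eq_of_le ht.1 with h | h
    · exact fun h3 => h2out t h ht.2 (subset_closure h3)
    · rw [← h]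
      exact h2N

theorem ext_at2 {F : ℂ → ℂ} {a : ℂ} {U0 : Set ℂ} (hU0 : IsOpen U0) (haU : a ∈ U0)
    (hF : ContinuousOn F (U0 \ {a})) (hopen : ∀ z ∈ U0 \ {a}, ∀ N ∈ 𝓝 z, F '' N ∈ 𝓝 (F z))
    (hN : ∀ ε : ℝ, 0 < ε → ∀ U ∈ 𝓝 a, ∃ (N : Set ℂ) (p : ℂ), IsOpen N ∧ a ∈ N ∧ closure N ⊆ U ∧
      (∀ z ∈ closure N \ N, ‖F z - p‖ ≤ ε)) :
    ∃ A : ℂ, Tendsto F (𝓝[≠] a) (𝓝 A) := by
  have key : ∀ r : ℝ, 0 < r → ∃ N : Set ℂ, N ∈ 𝓝 a ∧ ∃ p : ℂ, ∀ z ∈ N, z ≠ a → ‖F z - p‖ ≤ 6 * r := by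
    intro r hr
    obtain ⟨r0, hr0, hball⟩ := Metric.nhds_basis_closedBall.mem_iff.1 (hU0.mem_nhds haU)
    obtain ⟨N, p, hNo, haN, hNU, hNp⟩ :=
      hN r hr (closedBall a r0) (Metric.closedBall_mem_nhds a hr0)
    refine ⟨N, hNo.mem_nhds haN, p, fun z hz hza => ?_⟩
    have hd : 0 < dist z a := dist_pos.2 hza
    obtain ⟨N', p', hNo', haN', hNU', hNp'⟩ :=
      hN r hr (N ∩ ball a (dist z a)) (Filter.inter_mem (hNo.mem_nhds haN) (Metric.ball_mem_nhds a hd))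
    have hcN : IsCompact (closure N) := (isCompact_closedBall a r0).of_isClosed_subset isClosed_closure hNU
    have hA : IsCompact (closure N \ N') := hcN.diff hNo'
    have hR : IsOpen (N \ closure N') := hNo.sdiff isClosed_closure
    have hRA : N \ closure N' ⊆ closure N \ N' :=
      fun x hx => ⟨subset_closure hx.1, fun h => hx.2 (subset_closure h)⟩
    have hAR : closure N \ N' ⊆ (N \ closure N') ∪ (closure N \ N) ∪ (closure N' \ N') := by
      intro x hx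
      by_cases hxN : x ∈ N
      · by_cases hxN' : x ∈ closure N'
        · exact Or.inr ⟨hxN', hx.2⟩
        · exact Or.inl (Or.inl ⟨hxN, hxN'⟩)
      · exact Or.inl (Or.inr ⟨hx.1, hxN⟩)
    have hAU : closure N \ N' ⊆ U0 \ {a} := by
      intro x hx
      refine ⟨hball (hNU hx.1), ?_⟩
      intro hxa
      rw [mem_singleton_iff] at hxa
      exact hx.2 (hxa ▸ haN')
    obtain ⟨P, hPc, hPA, hP1, hP2⟩ := Ext2_ray hNo hNo' haN' (fun x hx => (hNU' hx).1)
      (subset_closure.trans hNU)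
    have hstep := ext_step (F := F) hA (hF.mono hAU) hR hRA hAR
      (fun x hx => hopen x (hAU (hRA hx))) (p := p) (p' := p') (r := r)
      (fun x hx => hNp x hx.1) (fun x hx => hNp' x hx.1) hPc hPA hP1 hP2
    refine hstep.2 z ⟨subset_closure hz, fun hzN' => ?_⟩
    have h2 := (hNU' (subset_closure hzN')).2
    rw [mem_ball] at h2
    exact lt_irrefl _ h2
  have hc : Cauchy (Filter.map F (𝓝[≠] a)) := by
    rw [Metric.cauchy_iff]
    refine ⟨inferInstance, fun ε hε => ?_⟩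
    obtain ⟨N, hNn, p, hp⟩ := key (ε / 24) (by positivity)
    refine ⟨F '' (N \ {a}), ?_, ?_⟩
    · refine Filter.image_mem_map ?_
      rw [Set.sdiff_eq]
      exact Filter.inter_mem (mem_nhdsWithin_of_mem_nhds hNn) self_mem_nhdsWithin
    · rintro x ⟨z, hz, rfl⟩ y ⟨w, hw, rfl⟩
      have h1 := hp z hz.1 (fun h => hz.2 (mem_singleton_iff.2 h))
      have h2 := hp w hw.1 (fun h => hw.2 (mem_singleton_iff.2 h))
      rw [dist_eq_norm]
      have h3 : F z - F w = (F z - p) - (F w - p) := by ring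
      rw [h3]
      have h4 := norm_sub_le (F z - p) (F w - p)
      linarith
  exact cauchy_map_iff_exists_tendsto.1 hc

end Pool.Agent.H.MP_4bdd60_an.LP
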