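import Mathlib

/-!
# MP_4bdd60_an, loops: the component of a point in the complement of a small compact set

PROOF. `N = connectedComponentIn Cᶜ p` is open (`IsOpen.connectedComponentIn`), `p ∈ N`, and its frontier is in `C`: a point of
`closure N` off `C` has a connected neighbourhood off `C` which meets `N`, so it is in `N`. `(ball p δ)ᶜ` is preconnected (image of
`Ici δ ×ˢ univ` under `(r, θ) ↦ circleMap p r θ`), disjoint from `C`; if `N` met it, it would be contained in `N`
(`IsPreconnected.subset_connectedComponentIn`), and `N` is bounded: contradiction. So `N ⊆ ball p δ`; the closure is in `closedBall p δ`, use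
a slightly smaller radius: `C` is compact, so it is in `ball p δ'` with `δ' < δ`.
-/

set_option autoImplicit false

open Set Filter Topology Metric

namespace Pool.Agent.H.MP_4bdd60_an.LP

private theorem Comp_pre (p : ℂ) {r : ℝ} (hr : 0 < r) : IsPreconnected (ball p r)ᶜ := by
  have hcont : Continuous fun q : ℝ × ℝ => p + (q.1 : ℂ) * Complex.exp ((q.2 : ℂ) * Complex.I) := by
    fun_prop
  have h1 : (ball p r)ᶜ = (fun q : ℝ × ℝ => p + (q.1 : ℂ) * Complex.exp ((q.2 : ℂ) * Complex.I)) ''
      (Ici r ×ˢ univ) := by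
    ext z
    constructor
    · intro hz
      rw [mem_compl_iff, mem_ball, not_lt, dist_eq_norm] at hz
      refine ⟨(‖z - p‖, Complex.arg (z - p)), ⟨hz, mem_univ _⟩, ?_⟩
      show p + ((‖z - p‖ : ℝ) : ℂ) * Complex.exp ((Complex.arg (z - p) : ℂ) * Complex.I) = z
      rw [Complex.norm_mul_exp_arg_mul_I]
      ring
    · rintro ⟨⟨s, t⟩, ⟨hs, -⟩, rfl⟩
      have hs' : r ≤ s := hs
      rw [mem_compl_iff, mem_ball, not_lt, dist_eq_norm]
      show r ≤ ‖p + (s : ℂ) * Complex.exp ((t : ℂ) * Complex.I) - p‖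
      rw [add_sub_cancel_left, norm_mul, Complex.norm_exp_ofReal_mul_I, mul_one,
        Complex.norm_real, Real.norm_eq_abs, abs_of_nonneg (hr.le.trans hs')]
      exact hs'
  rw [h1]
  exact (isPreconnected_Ici.prod isPreconnected_univ).image _ hcont.continuousOn

theorem comp_small {C : Set ℂ} {p : ℂ} {δ : ℝ} (hδ : 0 < δ) (hC : IsCompact C) (hp : p ∉ C) (hCδ : C ⊆ ball p δ)
    (hb : Bornology.IsBounded (connectedComponentIn Cᶜ p)) :
    ∃ N : Set ℂ, IsOpen N ∧ p ∈ N ∧ closure N ⊆ ball p δ ∧ closure N \ N ⊆ C := by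
  obtain ⟨r, ⟨hr0, hr⟩, hCr⟩ := exists_pos_lt_subset_ball hδ hC.isClosed hCδ
  have hopen : ∀ x, IsOpen (connectedComponentIn Cᶜ x) := fun x =>
    hC.isClosed.isOpen_compl.connectedComponentIn
  have hN : connectedComponentIn Cᶜ p ⊆ ball p r := by
    intro z hz
    by_contra hzr
    have h1 : (ball p r)ᶜ ⊆ connectedComponentIn Cᶜ z :=
      (Comp_pre p hr0).subset_connectedComponentIn hzr (compl_subset_compl.2 hCr)
    rw [← connectedComponentIn_eq hz] at h1
    have h2 : Bornology.IsBounded ((ball p r)ᶜ : Set ℂ) := hb.subset h1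
    have h3 : Bornology.IsBounded (univ : Set ℂ) := by
      rw [← union_compl_self (ball p r)]
      exact isBounded_ball.union h2
    exact NormedSpace.unbounded_univ ℝ ℂ h3
  refine ⟨connectedComponentIn Cᶜ p, hopen p, mem_connectedComponentIn hp, ?_, ?_⟩
  · exact (closure_minimal (hN.trans ball_subset_closedBall) isClosed_closedBall).trans
      (closedBall_subset_ball hr)
  · rintro x ⟨hx1, hx2⟩
    by_contra hxC
    have h1 : connectedComponentIn Cᶜ x ∈ 𝓝 x :=
      (hopen x).mem_nhds (mem_connectedComponentIn hxC)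
    obtain ⟨y, hy1, hy2⟩ := mem_closure_iff_nhds.1 hx1 _ h1
    apply hx2
    rw [connectedComponentIn_eq hy2, ← connectedComponentIn_eq hy1]
    exact mem_connectedComponentIn hxC

end Pool.Agent.H.MP_4bdd60_an.LP
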