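import Mathlib

/-!
# MP_4bdd60_an, loops: definition
-/

set_option autoImplicit false

open Set Filter Topology Metric MeasureTheory
open scoped ENNReal Real

namespace Pool.Agent.H.MP_4bdd60_an.LP

/-- Small closed curves round `p` which meet `E` at countably many parameters have extremal length zero: for every Borel
`ρ ≥ 0` with square integrable near every point and all `δ, ε > 0` there is a closed curve `c : [0, 1] → ball p δ \ {p}` which is
off `E` and differentiable outside of a countable set of parameters, such that `p` is in a bounded component of the complement of the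
curve and the length of `c` in the metric `ρ |dz|` is at most `ε`. -/
def Loops (E : Set ℂ) (p : ℂ) : Prop :=
  ∀ ρ : ℂ → ℝ≥0∞, Measurable ρ → (∀ R : ℝ, ∫⁻ z in ball 0 R, ρ z ^ 2 < ∞) →
    ∀ δ ε : ℝ, 0 < δ → 0 < ε → ∃ c c' : ℝ → ℂ, ContinuousOn c (Icc 0 1) ∧ c 0 = c 1 ∧
      (∀ t ∈ Icc (0 : ℝ) 1, c t ∈ ball p δ ∧ c t ≠ p) ∧
      (∃ T : Set ℝ, T.Countable ∧ ∀ t ∈ Ioo (0 : ℝ) 1 \ T, c t ∉ E ∧ HasDerivAt c (c' t) t) ∧
      Bornology.IsBounded (connectedComponentIn (c '' Icc 0 1)ᶜ p) ∧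
      ∫⁻ t in Ioo (0 : ℝ) 1, ρ (c t) * ‖c' t‖ₑ ≤ ENNReal.ofReal ε

end Pool.Agent.H.MP_4bdd60_an.LP
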