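import Mathlib

/-!
# MP_4bdd60_an, loops: a logarithm off a small open set

PROOF. As `log_off` in CI/Log.lean. On the compact set `closure N \ N` (not empty, if it is empty then `N` is clopen) `E` has values
in `closedBall e r`, `r < ‖e‖`. Tietze: `T : ℂ → ℂ` continuous with values in this ball and `T = E` on `closure N \ N`.
`E' z = T z` for `z ∈ closure N`, `E z` otherwise; continuous on `ball p R` (closed sets `closure N` and `Nᶜ`), without zeros. `ball p R` is
convex, so it is simply connected, and `Complex.exists_continuousOn_eqOn_exp_comp` applies.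
-/

set_option autoImplicit false

open Set Filter Topology Metric

namespace Pool.Agent.H.MP_4bdd60_an.LP

/-- The function on a closed set extends to a function without zeros. -/
private theorem Fill_ext {E : ℂ → ℂ} {F : Set ℂ} (hF : IsClosed F) (hE : ContinuousOn E F)
    (h : ∀ z ∈ F, ∀ w ∈ F, ‖E z - E w‖ < ‖E w‖) :
    ∃ G : ℂ → ℂ, Continuous G ∧ (∀ z, G z ≠ 0) ∧ ∀ z ∈ F, G z = E z := by
  rcases F.eq_empty_or_nonempty with hFe | ⟨w0, hw⟩
  · refine ⟨fun _ => 1, continuous_const, fun _ => one_ne_zero, fun z hz => ?_⟩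
    rw [hFe] at hz
    exact absurd hz (Set.notMem_empty z)
  set e : ℂ := E w0 with he
  have he0 : e ≠ 0 := by
    intro h1
    have h2 := h _ hw _ hw
    rw [← he, h1, norm_zero] at h2
    exact absurd h2 (not_lt.2 (norm_nonneg _))
  have hsp : ∀ z ∈ F, E z / e ∈ Complex.slitPlane := by
    intro z hz
    have h2 := h z hz _ hw
    rw [← he] at h2
    have h3 : ‖E z / e - 1‖ < 1 := by
      rw [div_sub_one he0, norm_div, div_lt_one (norm_pos_iff.2 he0)]
      exact h2
    apply Complex.ball_one_subset_slitPlane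
    rw [mem_ball_iff_norm]
    exact h3
  have hc : ContinuousOn (fun z => Complex.log (E z / e)) F := (hE.div_const e).clog hsp
  obtain ⟨H, hH⟩ := ContinuousMap.exists_restrict_eq hF
    ⟨_, continuousOn_iff_continuous_domRestrict.1 hc⟩
  refine ⟨fun z => e * Complex.exp (H z), by fun_prop, fun z => mul_ne_zero he0
    (Complex.exp_ne_zero _), fun z hz => ?_⟩
  have h4 : H z = Complex.log (E z / e) := by
    have h5 := congrArg (fun f => f ⟨z, hz⟩) hH
    simpa using h5
  show e * Complex.exp (H z) = E z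
  rw [h4, Complex.exp_log (Complex.slitPlane_ne_zero (hsp z hz)), mul_div_cancel₀ _ he0]

theorem fill_log {E : ℂ → ℂ} {p : ℂ} {R : ℝ} (hR : 0 < R) (hE : ContinuousOn E (ball p R \ {p}))
    (h0 : ∀ z ∈ ball p R, z ≠ p → E z ≠ 0) {N : Set ℂ} (hN : IsOpen N) (hpN : p ∈ N) (hNR : closure N ⊆ ball p R)
    (hs : ∀ z ∈ closure N \ N, ∀ w ∈ closure N \ N, ‖E z - E w‖ < ‖E w‖) :
    ∃ L : ℂ → ℂ, ContinuousOn L (ball p R) ∧ ∀ z ∈ ball p R, z ∉ N → Complex.exp (L z) = E z := by
  classical
  have hF : IsClosed (closure N \ N) := isClosed_closure.sdiff hN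
  have hEF : ContinuousOn E (closure N \ N) := by
    refine hE.mono ?_
    rintro z ⟨h1, h2⟩
    exact ⟨hNR h1, fun h3 => h2 (by rw [Set.mem_singleton_iff.1 h3]; exact hpN)⟩
  obtain ⟨G, hG, hG0, hGE⟩ := Fill_ext hF hEF hs
  have hNi : N ⊆ interior (closure N) := interior_maximal subset_closure hN
  have hc : ContinuousOn (fun z => if z ∈ closure N then G z else E z) (ball p R) := by
    apply ContinuousOn.if
    · rintro z ⟨-, hz⟩
      have h1 : z ∈ frontier (closure N) := hz
      have h2 : z ∈ closure (closure N) \ interior (closure N) := h1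
      rw [closure_closure] at h2
      exact hGE z ⟨h2.1, fun h3 => h2.2 (hNi h3)⟩
    · exact hG.continuousOn
    · refine hE.mono ?_
      rintro z ⟨h1, h2⟩
      refine ⟨h1, fun h3 => ?_⟩
      have h4 : closure {z | ¬ z ∈ closure N} = (interior (closure N))ᶜ := by
        have h5 : {z | ¬ z ∈ closure N} = (closure N)ᶜ := rfl
        rw [h5, closure_compl]
      rw [h4] at h2
      exact h2 (hNi (by rw [Set.mem_singleton_iff.1 h3]; exact hpN))
  have hsc : IsSimplyConnected (ball p R : Set ℂ) := by
    have h1 : ContractibleSpace (ball p R : Set ℂ) :=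
      (convex_ball p R).contractibleSpace ⟨p, mem_ball_self hR⟩
    exact (inferInstance : SimplyConnectedSpace (ball p R : Set ℂ))
  obtain ⟨L, hL, hLe⟩ := Complex.exists_continuousOn_eqOn_exp_comp hsc isOpen_ball hc (by
    rintro ⟨z, hz, h1⟩
    beta_reduce at h1
    by_cases h2 : z ∈ closure N
    · rw [if_pos h2] at h1
      exact hG0 z h1
    · rw [if_neg h2] at h1
      refine h0 z hz ?_ h1
      rintro rfl
      exact h2 (subset_closure hpN))
  refine ⟨L, hL, fun z hz hzN => ?_⟩
  have h1 : Complex.exp (L z) = (if z ∈ closure N then G z else E z) := hLe hz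
  rw [h1]
  by_cases h2 : z ∈ closure N
  · rw [if_pos h2]
    exact hGE z ⟨h2, hzN⟩
  · rw [if_neg h2]

end Pool.Agent.H.MP_4bdd60_an.LP
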