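import Mathlib

/-!
# MP_4bdd60_an, loops: variation along a curve

PROOF of `var_le`. `h` is continuous on `[0, 1]` and has the derivative `h' t` off a countable set; `h'` is a.e. equal to `deriv h`
(measurable, `measurable_deriv`; change `h` outside of `[0, 1]` or use `Ioo 0 1`), so it is integrable on `Ioo 0 1` by `hi`. By the
fundamental theorem of calculus off a countable set (see CI/Circ.lean, `circ_F`) `h t - h s` is the integral of `h'` over `s..t`, of
norm at most `ε`.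
PROOF of `var_exp`. `e` has a continuous logarithm `l` on `[0, 1]` (extend `e` to `ℝ` by `e (projIcc ..)`, then
`Complex.exists_continuousOn_eqOn_exp_comp` with `U = univ` on `ℝ`). At `t ∈ Ioo 0 1 \ T` near `t`: `l s = l t + Complex.log (e s / e t)`
(values of `l` close to `l t`), so `l` has the derivative `κ t`. Apply `var_le` to `l`.
-/

set_option autoImplicit false

open Set Filter Topology Metric MeasureTheory
open scoped ENNReal Real

namespace Pool.Agent.H.MP_4bdd60_an.LP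

theorem var_le {h h' : ℝ → ℂ} {T : Set ℝ} {ε : ℝ} (hε : 0 ≤ ε) (hc : ContinuousOn h (Icc 0 1)) (hT : T.Countable)
    (hd : ∀ t ∈ Ioo (0 : ℝ) 1 \ T, HasDerivAt h (h' t) t)
    (hi : ∫⁻ t in Ioo (0 : ℝ) 1, ‖h' t‖ₑ ≤ ENNReal.ofReal ε) :
    ∀ s ∈ Icc (0 : ℝ) 1, ∀ t ∈ Icc (0 : ℝ) 1, ‖h s - h t‖ ≤ ε := by
  have hT0 : volume T = 0 := hT.measure_zero volume
  have hl : ∫⁻ t in Ioc (0 : ℝ) 1, ‖deriv h t‖ₑ ≤ ENNReal.ofReal ε := by
    rw [← setLIntegral_congr (Ioo_ae_eq_Ioc (a := (0 : ℝ)) (b := 1))]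
    refine le_trans (le_of_eq ?_) hi
    refine setLIntegral_congr_fun_ae measurableSet_Ioo ?_
    have h1 : ∀ᵐ t ∂(volume : Measure ℝ), t ∉ T := measure_eq_zero_iff_ae_notMem.1 hT0
    filter_upwards [h1] with t ht hI
    rw [(hd t ⟨hI, ht⟩).deriv]
  have hint : IntegrableOn (deriv h) (Ioc (0 : ℝ) 1) :=
    ⟨(measurable_deriv h).aestronglyMeasurable, hl.trans_lt ENNReal.ofReal_lt_top⟩
  intro s hs t ht
  have hsub : uIcc t s ⊆ Icc (0 : ℝ) 1 := Icc_subset_Icc (le_min ht.1 hs.1) (max_le ht.2 hs.2)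
  have hii : IntervalIntegrable (deriv h) volume t s := by
    rw [intervalIntegrable_iff]
    exact hint.mono_set (Ioc_subset_Ioc (le_min ht.1 hs.1) (max_le ht.2 hs.2))
  have h1 := integral_eq_of_hasDerivAt_off_countable h (deriv h) (a := t) (b := s) hT
    (hc.mono hsub) (fun x hx => by
      have h2 : x ∈ Ioo (0 : ℝ) 1 :=
        ⟨lt_of_le_of_lt (le_min ht.1 hs.1) hx.1.1, lt_of_lt_of_le hx.1.2 (max_le ht.2 hs.2)⟩
      exact (hd x ⟨h2, hx.2⟩).differentiableAt.hasDerivAt) hii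
  rw [← h1]
  calc ‖∫ x in t..s, deriv h x‖ ≤ ∫ x in uIoc t s, ‖deriv h x‖ :=
        intervalIntegral.norm_integral_le_integral_norm_uIoc
    _ ≤ ∫ x in Ioc (0 : ℝ) 1, ‖deriv h x‖ := by
        refine setIntegral_mono_set hint.norm (Eventually.of_forall fun x => norm_nonneg _) ?_
        exact (Ioc_subset_Ioc (le_min ht.1 hs.1) (max_le ht.2 hs.2)).eventuallyLE
    _ = (∫⁻ x in Ioc (0 : ℝ) 1, ‖deriv h x‖ₑ).toReal :=
        integral_norm_eq_lintegral_enorm hint.aestronglyMeasurable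
    _ ≤ ε := ENNReal.toReal_le_of_le_ofReal hε hl

theorem var_exp {e κ : ℝ → ℂ} {T : Set ℝ} {ε : ℝ} (hε : 0 ≤ ε) (hc : ContinuousOn e (Icc 0 1))
    (h0 : ∀ t ∈ Icc (0 : ℝ) 1, e t ≠ 0) (hT : T.Countable)
    (hd : ∀ t ∈ Ioo (0 : ℝ) 1 \ T, HasDerivAt e (κ t * e t) t)
    (hi : ∫⁻ t in Ioo (0 : ℝ) 1, ‖κ t‖ₑ ≤ ENNReal.ofReal ε) :
    ∀ s ∈ Icc (0 : ℝ) 1, ∀ t ∈ Icc (0 : ℝ) 1, ∃ u : ℂ, ‖u‖ ≤ ε ∧ e s = e t * Complex.exp u := by
  have h01 : (0 : ℝ) ≤ 1 := zero_le_one
  have hec : Continuous fun t : ℝ => e (projIcc 0 1 h01 t) := by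
    have h1 : Continuous fun t : Icc (0 : ℝ) 1 => e t := hc.domRestrict
    exact h1.comp continuous_projIcc
  have hep : ∀ t ∈ Icc (0 : ℝ) 1, e (projIcc 0 1 h01 t) = e t := fun t ht => by
    rw [projIcc_of_mem h01 ht]
  have hsc : IsSimplyConnected (univ : Set ℝ) := by
    have h1 : ContractibleSpace (univ : Set ℝ) :=
      (convex_univ (𝕜 := ℝ) (E := ℝ)).contractibleSpace univ_nonempty
    exact (inferInstance : SimplyConnectedSpace (univ : Set ℝ))
  obtain ⟨l, hl, hle⟩ := Complex.exists_continuousOn_eqOn_exp_comp hsc isOpen_univ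
    hec.continuousOn (by
      rintro ⟨t, -, h1⟩
      exact h0 _ (projIcc 0 1 h01 t).2 h1)
  have hlc : Continuous l := continuousOn_univ.1 hl
  have hexp : ∀ t ∈ Icc (0 : ℝ) 1, Complex.exp (l t) = e t := fun t ht => by
    rw [← hep t ht]
    exact hle (mem_univ t)
  have hld : ∀ t ∈ Ioo (0 : ℝ) 1 \ T, HasDerivAt l (κ t) t := by
    intro t ht
    have ht1 : t ∈ Icc (0 : ℝ) 1 := Ioo_subset_Icc_self ht.1
    have he0 : e t ≠ 0 := h0 t ht1
    have h2 : HasDerivAt (fun s => e s / e t) (κ t) t := by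
      have h3 := (hd t ht).div_const (e t)
      rwa [mul_div_assoc, div_self he0, mul_one] at h3
    have h4 : HasDerivAt (fun s => Complex.log (e s / e t)) (κ t) t := by
      have h5 : e t / e t ∈ Complex.slitPlane := by
        rw [div_self he0]
        exact Complex.one_mem_slitPlane
      have h6 := h2.clog_real h5
      rwa [div_self he0, div_one] at h6
    have h7 : HasDerivAt (fun s => l t + Complex.log (e s / e t)) (κ t) t := h4.const_add _
    refine h7.congr_of_eventuallyEq ?_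
    have h8 : ∀ᶠ s in 𝓝 t, ‖l s - l t‖ < π := by
      have h9 : Tendsto (fun s => ‖l s - l t‖) (𝓝 t) (𝓝 ‖l t - l t‖) :=
        ((hlc.tendsto t).sub tendsto_const_nhds).norm
      rw [sub_self, norm_zero] at h9
      exact h9.eventually_lt_const Real.pi_pos
    filter_upwards [h8, isOpen_Ioo.mem_nhds ht.1] with s hs1 hs2
    have hs3 : s ∈ Icc (0 : ℝ) 1 := Ioo_subset_Icc_self hs2
    have h10 : e s / e t = Complex.exp (l s - l t) := by
      rw [Complex.exp_sub, hexp s hs3, hexp t ht1]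
    have h11 := Complex.abs_im_le_norm (l s - l t)
    have h12 := abs_lt.1 (h11.trans_lt hs1)
    rw [h10, Complex.log_exp h12.1 h12.2.le]
    ring
  intro s hs t ht
  refine ⟨l s - l t, var_le hε hlc.continuousOn hT hld hi s hs t ht, ?_⟩
  rw [Complex.exp_sub, hexp s hs, hexp t ht]
  have he0 : e t ≠ 0 := h0 t ht
  field_simp

end Pool.Agent.H.MP_4bdd60_an.LP
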