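import Pool.Agent.H.MP_4bdd60_an.UN.Glue
import Pool.Agent.H.MP_4bdd60_an.UN.Loc
import Pool.Agent.H.MP_4bdd60_an.UN.Psi
import Pool.Agent.H.MP_4bdd60_an.CI.Path
import Pool.Agent.H.MP_4bdd60_an.LP.Def
import Pool.Agent.H.MP_4bdd60_an.LP.Var
import Pool.Agent.H.MP_4bdd60_an.LP.Comp
import Pool.Agent.H.MP_4bdd60_an.LP.Fill

/-!
# MP_4bdd60_an, loops: a primitive on a punctured disc

PROOF of `loop_set` (used for the monodromy and for the limit): apply `hg` with `ρ z = ‖Kᶜ.indicator k z‖ₑ` (measurable: `k` is continuous on the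
open set `Kᶜ`; square integrable by `hfin`) and take `N` from `comp_small` with `C = c '' Icc 0 1`; `closure N \ N ⊆ C`.
PROOF of `mono`. As `punc` in UN/Punc.lean (copy it) up to the constant `m` with `F~ (ζ + 2 π i) = F~ ζ + m`. Suppose `m ≠ 0`, `c0 = 2 π i / m`.
`E (Ψ ζ) = exp (c0 * F~ ζ)` is well defined on `ball p R \ {p}` (`Ψ ζ = Ψ ζ'` iff `ζ - ζ' ∈ 2 π i ℤ`), continuous there, without zeros, and has
the derivative `c0 * k1 z * E z` at `z ∉ K ∪ L` (`Ψ` is open; near `z`: `E = exp (c0 * (G_z + const))`). Apply `loop_set` with `δ < R`, and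
`var_exp` to `e t = E (c t)`, `κ t = c0 * k1 (c t) * c' t`, with `‖c0‖ * ε ≤ 1 / 4`: `‖E z - E w‖ < ‖E w‖` on `closure N \ N`
(`Complex.norm_exp_sub_one_le`). `fill_log`: `Lg`. Choose `s0` with `Ψ ζ ∉ closure N` for `Re ζ ≥ s0` (`δ ≤ |Ψ ζ - p|`; `exists_psi` for `r = δ` gives `s0`,
and `‖Ψ (s + θ I) - p‖ ≥ δ` for `s ≥ s0`: if this is awkward use only the line `Re ζ = s0`, where `‖Ψ ζ - p‖ = δ`: it is connected and contains
`ζ` and `ζ + 2 π i`). On this line `Lg (Ψ ζ) - c0 * F~ ζ` is continuous with exponential `1`, so it is constant (as `const_int` in CI/Path.lean),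
and `Ψ (ζ + 2 π i) = Ψ ζ`: so `c0 * m = 0`, contradiction. The rest as in `punc`.
-/

set_option autoImplicit false

open Set Filter Topology Metric MeasureTheory
open scoped ENNReal Real

namespace Pool.Agent.H.MP_4bdd60_an.LP

open UN

variable {K L : Set ℂ} {f : ℂ ≃ₜ ℂ} {k1 k2 : ℂ → ℂ}

theorem loop_set {k : ℂ → ℂ} {K Γ : Set ℂ} {p : ℂ} (hK : IsClosed K) (hKΓ : K ⊆ Γ) (hk : ContinuousOn k Kᶜ)
    (hfin : ∀ R : ℝ, ∫⁻ z in Kᶜ ∩ ball 0 R, ‖k z‖ₑ ^ 2 < ∞) (hg : Loops Γ p) {δ ε : ℝ} (hδ : 0 < δ) (hε : 0 < ε) :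
    ∃ (c c' : ℝ → ℂ) (T : Set ℝ) (N : Set ℂ), ContinuousOn c (Icc 0 1) ∧ T.Countable ∧
      (∀ t ∈ Icc (0 : ℝ) 1, c t ∈ ball p δ ∧ c t ≠ p) ∧
      (∀ t ∈ Ioo (0 : ℝ) 1 \ T, c t ∉ Γ ∧ HasDerivAt c (c' t) t) ∧
      IsOpen N ∧ p ∈ N ∧ closure N ⊆ ball p δ ∧ closure N \ N ⊆ c '' Icc 0 1 ∧
      ∫⁻ t in Ioo (0 : ℝ) 1, ‖k (c t) * c' t‖ₑ ≤ ENNReal.ofReal ε := by
  classical
  have hKm : MeasurableSet Kᶜ := hK.isOpen_compl.measurableSet
  have hm0 : Measurable (Kᶜ.indicator k) := by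
    rw [← Set.piecewise_eq_indicator]
    exact ContinuousOn.measurable_piecewise hk continuousOn_const hKm
  have hsq : ∀ R : ℝ, ∫⁻ z in ball 0 R, ‖Kᶜ.indicator k z‖ₑ ^ 2 < ∞ := by
    intro R
    have h1 : ∀ z, ‖Kᶜ.indicator k z‖ₑ ^ 2 = Kᶜ.indicator (fun z => ‖k z‖ₑ ^ 2) z := by
      intro z
      by_cases hz : z ∈ Kᶜ
      · rw [indicator_of_mem hz, indicator_of_mem hz]
      · rw [indicator_of_notMem hz, indicator_of_notMem hz]
        simp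
    rw [lintegral_congr h1, setLIntegral_indicator hKm]
    exact hfin R
  obtain ⟨c, c', hc, hc01, hcb, ⟨T, hT, hTd⟩, hbd, hlen⟩ :=
    hg (fun z => ‖Kᶜ.indicator k z‖ₑ) hm0.enorm hsq δ ε hδ hε
  have hCp : p ∉ c '' Icc 0 1 := by
    rintro ⟨t, ht, h1⟩
    exact (hcb t ht).2 h1
  have hCδ : c '' Icc 0 1 ⊆ ball p δ := by
    rintro _ ⟨t, ht, rfl⟩
    exact (hcb t ht).1
  obtain ⟨N, hN1, hN2, hN3, hN4⟩ :=
    comp_small hδ (isCompact_Icc.image_of_continuousOn hc) hCp hCδ hbd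
  refine ⟨c, c', T, N, hc, hT, hcb, hTd, hN1, hN2, hN3, hN4, le_trans ?_ hlen⟩
  apply lintegral_mono_ae
  rw [ae_restrict_iff' measurableSet_Ioo]
  filter_upwards [hT.ae_notMem volume] with t ht ht'
  have h1 : c t ∈ Kᶜ := fun h => (hTd t ⟨ht', ht⟩).1 (hKΓ h)
  show ‖k (c t) * c' t‖ₑ ≤ ‖Kᶜ.indicator k (c t)‖ₑ * ‖c' t‖ₑ
  rw [indicator_of_mem h1, enorm_mul]

/-- The argument which excludes a monodromy. -/
private theorem Mono_zero (hK : IsClosed K) (hk : ContinuousOn k1 Kᶜ)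
    (hfin : ∀ R : ℝ, ∫⁻ z in Kᶜ ∩ ball 0 R, ‖k1 z‖ₑ ^ 2 < ∞)
    {p : ℂ} {R : ℝ} (hR : 0 < R) (hg : Loops (K ∪ L) p)
    {Ψ F : ℂ → ℂ} (hΨc : Continuous Ψ) (hFc : Continuous F) (hΨr : range Ψ = ball p R \ {p})
    {T m c0 : ℂ} (hT : T = 2 * π * Complex.I) (hΨp : ∀ ζ : ℂ, Ψ (ζ + T) = Ψ ζ)
    (hΨs : ∀ r : ℝ, 0 < r → r < R → ∃ s : ℝ, ∀ θ : ℝ, Ψ (s + θ * Complex.I) = circleMap p r θ)
    (hm : ∀ ζ, F (ζ + T) = F ζ + m) (hc0 : c0 * m = T) {E : ℂ → ℂ}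
    (hE : ∀ ζ, E (Ψ ζ) = Complex.exp (c0 * F ζ)) (hEc : ContinuousOn E (ball p R \ {p}))
    (hEd : ∀ z ∈ ball p R, z ≠ p → z ∉ K → HasDerivAt E (E z * (c0 * k1 z)) z) : False := by
  have hT0 : T ≠ 0 := by
    rw [hT]
    exact Complex.two_pi_I_ne_zero
  have hE0 : ∀ z ∈ ball p R, z ≠ p → E z ≠ 0 := by
    intro z hz hzp
    have h1 : z ∈ range Ψ := by
      rw [hΨr]
      exact ⟨hz, hzp⟩
    obtain ⟨ζ, rfl⟩ := h1
    rw [hE]
    exact Complex.exp_ne_zero _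
  have hc00 : 0 < ‖c0‖ + 1 := by positivity
  obtain ⟨c, c', T', N, hc, hT', hcb, hTd, hN1, hN2, hN3, hN4, hlen⟩ :=
    loop_set (k := k1) (K := K) (Γ := K ∪ L) (p := p) hK subset_union_left hk hfin hg
      (δ := R / 2) (ε := 1 / (4 * (‖c0‖ + 1))) (by linarith) (by positivity)
  have hsub : ball p (R / 2) ⊆ ball p R := ball_subset_ball (by linarith)
  have hcR : ∀ t ∈ Icc (0 : ℝ) 1, c t ∈ ball p R \ {p} := fun t ht =>
    ⟨hsub (hcb t ht).1, (hcb t ht).2⟩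
  have hvar := var_exp (e := fun t => E (c t)) (κ := fun t => c0 * (k1 (c t) * c' t)) (T := T')
    (ε := 1 / 4) (by norm_num) (hEc.comp hc fun t ht => hcR t ht)
    (fun t ht => hE0 _ (hcR t ht).1 (hcR t ht).2) hT' (by
      intro t ht
      have ht1 : t ∈ Icc (0 : ℝ) 1 := Ioo_subset_Icc_self ht.1
      obtain ⟨h1, h2⟩ := hTd t ht
      have h3 := hEd (c t) (hcR t ht1).1 (hcR t ht1).2 (fun h => h1 (Or.inl h))
      have h4 := h3.comp t h2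
      have h5 : E (c t) * (c0 * k1 (c t)) * c' t = c0 * (k1 (c t) * c' t) * E (c t) := by ring
      rw [h5] at h4
      exact h4) (by
      have h1 : ∀ t : ℝ, ‖c0 * (k1 (c t) * c' t)‖ₑ = ‖c0‖ₑ * ‖k1 (c t) * c' t‖ₑ := fun t =>
        enorm_mul _ _
      rw [lintegral_congr h1, lintegral_const_mul' _ _ enorm_ne_top]
      calc ‖c0‖ₑ * ∫⁻ t in Ioo (0 : ℝ) 1, ‖k1 (c t) * c' t‖ₑ
          ≤ ‖c0‖ₑ * ENNReal.ofReal (1 / (4 * (‖c0‖ + 1))) := mul_le_mul_right hlen _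
        _ = ENNReal.ofReal (‖c0‖ * (1 / (4 * (‖c0‖ + 1)))) := by
            rw [ENNReal.ofReal_mul (norm_nonneg _), ofReal_norm]
        _ ≤ ENNReal.ofReal (1 / 4) := by
            apply ENNReal.ofReal_le_ofReal
            rw [mul_one_div, div_le_div_iff₀ (by positivity) (by norm_num)]
            linarith)
  have hs : ∀ z ∈ closure N \ N, ∀ w ∈ closure N \ N, ‖E z - E w‖ < ‖E w‖ := by
    intro z hz w hw
    obtain ⟨s, hs, rfl⟩ := hN4 hz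
    obtain ⟨t, ht, rfl⟩ := hN4 hw
    obtain ⟨u, hu, he⟩ := hvar s hs t ht
    have he' : E (c s) = E (c t) * Complex.exp u := he
    have h1 : E (c s) - E (c t) = E (c t) * (Complex.exp u - 1) := by
      rw [he']
      ring
    have h2 : ‖Complex.exp u - 1‖ ≤ 2 * ‖u‖ := Complex.norm_exp_sub_one_le (by linarith)
    have h3 : 0 < ‖E (c t)‖ := norm_pos_iff.2 (hE0 _ (hcR t ht).1 (hcR t ht).2)
    rw [h1, norm_mul]
    nlinarith
  obtain ⟨Lg, hLc, hLe⟩ := fill_log hR hEc hE0 hN1 hN2 (hN3.trans hsub) hs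
  obtain ⟨s0, hs0⟩ := hΨs (R / 2) (by linarith) (by linarith)
  have hΨR : ∀ ζ, Ψ ζ ∈ ball p R := by
    intro ζ
    have h1 : Ψ ζ ∈ ball p R \ {p} := hΨr ▸ mem_range_self ζ
    exact h1.1
  have hline : ∀ ζ : ℂ, ζ ∈ {ζ : ℂ | ζ.re = s0} → Ψ ζ ∉ N := by
    intro ζ hζ hN
    have h1 : ζ = (s0 : ℂ) + (ζ.im : ℝ) * Complex.I := by
      have h2 : ζ.re = s0 := hζ
      rw [← h2]
      exact (Complex.re_add_im ζ).symm
    have h2 : Ψ ζ ∈ ball p (R / 2) := hN3 (subset_closure hN)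
    rw [h1, hs0] at h2
    rw [mem_ball, dist_eq_norm, circleMap_sub_center, norm_circleMap_zero, abs_of_pos (by linarith)] at h2
    exact lt_irrefl _ h2
  have hA : IsPreconnected {ζ : ℂ | ζ.re = s0} := by
    apply Convex.isPreconnected
    intro x hx y hy a b _ _ hab
    have hx' : x.re = s0 := hx
    have hy' : y.re = s0 := hy
    show (a • x + b • y).re = s0
    rw [Complex.add_re, Complex.smul_re, Complex.smul_re, hx', hy', smul_eq_mul, smul_eq_mul,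
      ← add_mul, hab, one_mul]
  have hu := CI.const_int hA (u := fun ζ => Lg (Ψ ζ) - c0 * F ζ)
    ((hLc.comp hΨc.continuousOn fun ζ _ => hΨR ζ).sub (continuousOn_const.mul hFc.continuousOn))
    (by
      intro ζ hζ
      show Complex.exp (Lg (Ψ ζ) - c0 * F ζ) = 1
      rw [Complex.exp_sub, hLe _ (hΨR ζ) (hline ζ hζ), hE, div_self (Complex.exp_ne_zero _)])
    (p := (s0 : ℂ)) (q := (s0 : ℂ) + T) (by simp) (by
      show ((s0 : ℂ) + T).re = s0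
      rw [hT]
      simp)
  have hu' : Lg (Ψ (s0 : ℂ)) - c0 * F (s0 : ℂ) = Lg (Ψ ((s0 : ℂ) + T)) - c0 * F ((s0 : ℂ) + T) := hu
  rw [hΨp, hm] at hu'
  apply hT0
  rw [← hc0]
  linear_combination hu'

theorem mono (hK : IsClosed K) (hL : IsClosed L) (hF : Form K L f k1 k2)
    (hf : DifferentiableOn ℂ f (K ∪ L)ᶜ) {p : ℂ} {R : ℝ} (hR : 0 < R)
    (hiso : ∀ z ∈ ball p R, z ≠ p → z ∉ K ∩ L) (hg : Loops (K ∪ L) p) :
    ∃ G : ℂ → ℂ, ∀ z ∈ ball p R, z ≠ p → IsPr K L f k1 k2 G z := by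
  obtain ⟨Ψ, hΨc, hΨo, hΨr, hΨi, hΨp, hΨs⟩ := exists_psi (p := p) hR
  have hmem : ∀ ζ, Ψ ζ ∈ ball p R \ {p} := fun ζ => hΨr ▸ mem_range_self ζ
  have hout : ∀ ζ, Ψ ζ ∉ K ∩ L := fun ζ => hiso _ (hmem ζ).1 (hmem ζ).2
  have hex : ∀ ζ, ∃ G : ℂ → ℂ, ∀ᶠ w in 𝓝 (Ψ ζ), IsPr K L f k1 k2 G w :=
    fun ζ => loc_exists hK hL hF hf (hout ζ)
  choose G0 hG0 using hex
  obtain ⟨F, hFF⟩ := glob (S := fun ζ v => G0 ζ (Ψ v)) (by
    intro ζ
    have h1 : ∀ᶠ ζ' in 𝓝 ζ, ∀ᶠ w in 𝓝 (Ψ ζ'), IsPr K L f k1 k2 (G0 ζ) w :=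
      hΨc.continuousAt.eventually (eventually_eventually_nhds.2 (hG0 ζ))
    filter_upwards [h1] with ζ' h2
    obtain ⟨c, hc⟩ := loc_unique hK hL (hout ζ') h2 (hG0 ζ')
    exact ⟨c, hΨc.continuousAt.eventually hc⟩)
  have hFc : Continuous F := by
    rw [continuous_iff_continuousAt]
    intro ζ
    obtain ⟨c, hc⟩ := hFF ζ
    have h1 : ContinuousAt (G0 ζ) (Ψ ζ) := (hG0 ζ).self_of_nhds.continuousAt (hout ζ)
    have h2 : ContinuousAt (fun v => G0 ζ (Ψ v) + c) ζ :=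
      (ContinuousAt.comp (f := Ψ) (g := G0 ζ) h1 hΨc.continuousAt).add continuousAt_const
    exact h2.congr (hc.mono fun w hw => hw.symm)
  obtain ⟨T, hT⟩ : ∃ T : ℂ, T = 2 * π * Complex.I := ⟨_, rfl⟩
  rw [← hT] at hΨp
  have hT0 : T ≠ 0 := by
    rw [hT]
    exact Complex.two_pi_I_ne_zero
  have hloc : IsLocallyConstant (fun ζ => F (ζ + T) - F ζ) := by
    rw [IsLocallyConstant.iff_eventually_eq]
    intro ζ
    obtain ⟨c, hc⟩ := hFF ζ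
    obtain ⟨c', hc'⟩ := hFF (ζ + T)
    have h0 : ∀ᶠ w in 𝓝 (Ψ ζ), IsPr K L f k1 k2 (G0 (ζ + T)) w := by
      have := hG0 (ζ + T)
      rwa [hΨp ζ] at this
    obtain ⟨e, he⟩ := loc_unique hK hL (hout ζ) h0 (hG0 ζ)
    have h1 : ∀ᶠ w in 𝓝 ζ, G0 (ζ + T) (Ψ w) = G0 ζ (Ψ w) + e := hΨc.continuousAt.eventually he
    have h2 : ∀ᶠ w in 𝓝 ζ, F (w + T) = G0 (ζ + T) (Ψ (w + T)) + c' := by
      have h3 : ContinuousAt (fun w : ℂ => w + T) ζ := (continuous_id.add continuous_const).continuousAt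
      exact h3.eventually hc'
    have h4 : ∀ᶠ w in 𝓝 ζ, F (w + T) - F w = e + c' - c := by
      filter_upwards [h1, h2, hc] with w w1 w2 w3
      rw [w2, w3, hΨp w, w1]
      ring
    have h5 := h4.self_of_nhds
    filter_upwards [h4] with w hw
    rw [hw, h5]
  obtain ⟨m, hm⟩ : ∃ m : ℂ, ∀ ζ, F (ζ + T) = F ζ + m := by
    refine ⟨F (0 + T) - F 0, fun ζ => ?_⟩
    have := hloc.apply_eq_of_preconnectedSpace ζ 0
    rw [← this]
    ring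
  -- the values at the other points of a fibre
  have hint : ∀ (ζ : ℂ) (n : ℤ), F (ζ + n * T) = F ζ + n * m := by
    intro ζ n
    have hper : Function.Periodic (fun ζ => F ζ - m / T * ζ) T := by
      intro ζ
      show F (ζ + T) - m / T * (ζ + T) = F ζ - m / T * ζ
      rw [hm]
      field_simp
      ring
    have h1 : F (ζ + n * T) - m / T * (ζ + n * T) = F ζ - m / T * ζ := hper.int_mul n ζ
    have h2 : m / T * (n * T) = n * m := by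
      field_simp
    linear_combination h1 + h2
  have hinv : ∀ ζ, ∃ n : ℤ, F (Function.invFun Ψ (Ψ ζ)) = F ζ + n * m := by
    intro ζ
    obtain ⟨n, hn⟩ := hΨi _ _ (Function.invFun_eq (f := Ψ) ⟨ζ, rfl⟩)
    rw [← hT] at hn
    exact ⟨n, by rw [hn, hint]⟩
  have hm0 : m = 0 := by
    by_contra hne
    obtain ⟨c0, hc0⟩ : ∃ c0 : ℂ, c0 * m = T := ⟨T / m, by field_simp⟩
    obtain ⟨E, hEdef⟩ : ∃ E : ℂ → ℂ, ∀ z, E z = Complex.exp (c0 * F (Function.invFun Ψ z)) :=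
      ⟨_, fun _ => rfl⟩
    have hE : ∀ ζ, E (Ψ ζ) = Complex.exp (c0 * F ζ) := by
      intro ζ
      obtain ⟨n, hn⟩ := hinv ζ
      rw [hEdef, hn]
      have h1 : c0 * (F ζ + n * m) = c0 * F ζ + n * T := by
        rw [← hc0]
        ring
      rw [h1, Complex.exp_add, hT, Complex.exp_int_mul_two_pi_mul_I, mul_one]
    have hEloc : ∀ ζ, ∃ e : ℂ, ∀ᶠ v in 𝓝 (Ψ ζ), E v = Complex.exp (c0 * (G0 ζ v + e)) := by
      intro ζ
      obtain ⟨e, he⟩ := hFF ζ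
      refine ⟨e, (hΨo.nhds_le ζ) ?_⟩
      show ∀ᶠ w in 𝓝 ζ, E (Ψ w) = Complex.exp (c0 * (G0 ζ (Ψ w) + e))
      filter_upwards [he] with w hw
      rw [hE, hw]
    have hEc : ContinuousOn E (ball p R \ {p}) := by
      intro z hz
      obtain ⟨ζ, rfl⟩ : z ∈ range Ψ := by
        rw [hΨr]
        exact hz
      obtain ⟨e, he⟩ := hEloc ζ
      have h1 : ContinuousAt (G0 ζ) (Ψ ζ) := (hG0 ζ).self_of_nhds.continuousAt (hout ζ)
      have h2 : ContinuousAt (fun v => Complex.exp (c0 * (G0 ζ v + e))) (Ψ ζ) :=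
        (continuousAt_const.mul (h1.add continuousAt_const)).cexp
      exact (h2.congr (he.mono fun w hw => hw.symm)).continuousWithinAt
    have hEd : ∀ z ∈ ball p R, z ≠ p → z ∉ K → HasDerivAt E (E z * (c0 * k1 z)) z := by
      intro z hz hzp hzK
      obtain ⟨ζ, rfl⟩ : z ∈ range Ψ := by
        rw [hΨr]
        exact ⟨hz, hzp⟩
      obtain ⟨e, he⟩ := hEloc ζ
      have h1 : HasDerivAt (G0 ζ) (k1 (Ψ ζ)) (Ψ ζ) := (hG0 ζ).self_of_nhds.1 hzK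
      have h2 := ((h1.add_const e).const_mul c0).cexp
      have h3 := h2.congr_of_eventuallyEq he
      rw [← he.self_of_nhds] at h3
      exact h3
    exact Mono_zero hK hF.hol1.continuousOn hF.fin hR hg hΨc hFc hΨr hT hΨp hΨs hm hc0 hE hEc hEd
  have hG : ∀ ζ, F (Function.invFun Ψ (Ψ ζ)) = F ζ := by
    intro ζ
    obtain ⟨n, hn⟩ := hinv ζ
    rw [hn, hm0, mul_zero, add_zero]
  refine ⟨fun z => F (Function.invFun Ψ z), ?_⟩
  intro z hz hzp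
  have hz' : z ∈ range Ψ := by
    rw [hΨr]
    exact ⟨hz, hzp⟩
  obtain ⟨ζ, rfl⟩ := hz'
  obtain ⟨c, hc⟩ := hFF ζ
  have h1 : ∀ᶠ v in 𝓝 (Ψ ζ), F (Function.invFun Ψ v) = G0 ζ v + c := by
    refine (hΨo.nhds_le ζ) ?_
    show ∀ᶠ w in 𝓝 ζ, F (Function.invFun Ψ (Ψ w)) = G0 ζ (Ψ w) + c
    filter_upwards [hc] with w hw
    rw [hG w, hw]
  exact IsPr.congr ((hG0 ζ).self_of_nhds.add_const c) h1

end Pool.Agent.H.MP_4bdd60_an.LP
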