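import Pool.Agent.H.MP_4bdd60_an.UN.Lim2
import Pool.Agent.H.MP_4bdd60_an.LP.Ext2
import Pool.Agent.H.MP_4bdd60_an.LP.Mono

/-!
# MP_4bdd60_an, loops: the limit at an isolated exceptional point
-/

set_option autoImplicit false

open Set Filter Topology Metric MeasureTheory
open scoped ENNReal Real

namespace Pool.Agent.H.MP_4bdd60_an.LP

open UN

variable {K L : Set ℂ} {f : ℂ ≃ₜ ℂ} {k1 k2 : ℂ → ℂ}

theorem lim_loop (hK : IsClosed K) (hL : IsClosed L) (hF : Form K L f k1 k2)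
    (hnK : ∀ z, z ∉ K → ¬ ∀ᶠ y in 𝓝 z, k1 y = 0)
    (hnL : ∀ z, z ∉ L → ¬ ∀ᶠ y in 𝓝 (f z), k2 y = 0) {p : ℂ} {R : ℝ} (hR : 0 < R)
    (hiso : ∀ z ∈ ball p R, z ≠ p → z ∉ K ∩ L) (hg : Loops (K ∪ L) p) {G : ℂ → ℂ}
    (hG : ∀ z ∈ ball p R, z ≠ p → IsPr K L f k1 k2 G z) : ∃ A : ℂ, Tendsto G (𝓝[≠] p) (𝓝 A) := by
  have hev : ∀ z ∈ ball p R, z ≠ p → ∀ᶠ w in 𝓝 z, IsPr K L f k1 k2 G w := by
    intro z hz hzp
    filter_upwards [isOpen_ball.mem_nhds hz, isOpen_compl_singleton.mem_nhds hzp] with w h1 h2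
    exact hG w h1 h2
  have hcG : ContinuousOn G (ball p R \ {p}) := fun z hz =>
    ((hG z hz.1 hz.2).continuousAt (hiso z hz.1 hz.2)).continuousWithinAt
  refine ext_at2 (U0 := ball p R) isOpen_ball (mem_ball_self hR) hcG
    (fun z hz => open_pr hK hL hnK hnL (hiso z hz.1 hz.2) (hev z hz.1 hz.2)) ?_
  intro ε hε U hU
  obtain ⟨η, hη, hηU⟩ := Metric.mem_nhds_iff.1 hU
  obtain ⟨c, c', T, N, hc, hT, hcp, hcd, hNo, hpN, hNδ, hNf, hci⟩ := loop_set (δ := min η R) hK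
    (subset_union_left : K ⊆ K ∪ L) hF.hol1.continuousOn hF.fin hg (lt_min hη hR) hε
  have hcR : ∀ t ∈ Icc (0 : ℝ) 1, c t ∈ ball p R \ {p} := fun t ht =>
    ⟨ball_subset_ball (min_le_right _ _) (hcp t ht).1, (hcp t ht).2⟩
  have hvar := var_le (h := fun t => G (c t)) (h' := fun t => k1 (c t) * c' t) hε.le
    (hcG.comp hc hcR) hT (fun t ht => by
      have h1 := hcR t (Ioo_subset_Icc_self ht.1)
      have h2 := (hG (c t) h1.1 h1.2).1 fun h => (hcd t ht).1 (Or.inl h)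
      exact h2.comp t (hcd t ht).2) hci
  refine ⟨N, G (c 0), hNo, hpN, hNδ.trans ((ball_subset_ball (min_le_left _ _)).trans hηU), ?_⟩
  intro z hz
  obtain ⟨t, ht, rfl⟩ := hNf hz
  exact hvar t ht 0 (left_mem_Icc.2 zero_le_one)

end Pool.Agent.H.MP_4bdd60_an.LP
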