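import Pool.Agent.H.MP_4bdd60_an.CI.Area
import Pool.Agent.H.MP_4bdd60_an.LP.Def

/-!
# MP_4bdd60_an, loops: circles

PROOF. `good_circle` (CI/Area.lean) gives a circle of radius `r < δ` which meets `Γ` in a countable set and on which the integral of a function
`k` is small; its proof (Cauchy-Schwarz in the angle, polar coordinates) works for every Borel `ρ : ℂ → ℝ≥0∞` with
`∫⁻ z in ball 0 R, ρ z ^ 2 < ∞`: either repeat it for `ρ`, or apply `good_circle` with `K = ∅` ... (`k` must be continuous there, so repeat the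
proof). Take `c t = circleMap p r (2 π t)` (or the angle in `(-π, π)`: `c t = circleMap p r (2 π t - π)`), `c' t` its derivative, `T` = the
parameters with `c t ∈ Γ` (countable, `circleMap` is injective on a period). The component of `p` in the complement of `sphere p r` is contained
in `ball p r` (`ball p r` and the complement of the closed ball are open, disjoint and cover the complement of the sphere).
-/

set_option autoImplicit false

open Set Filter Topology Metric MeasureTheory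
open scoped ENNReal Real

namespace Pool.Agent.H.MP_4bdd60_an.LP

open CI

private theorem Cir_cs {α : Type} [MeasurableSpace α] (μ : Measure α) {f : α → ℝ≥0∞}
    (hf : AEMeasurable f μ) : (∫⁻ x, f x ∂μ) ^ 2 ≤ μ univ * ∫⁻ x, f x ^ 2 ∂μ := by
  have h := ENNReal.lintegral_mul_le_Lp_mul_Lq μ Real.HolderConjugate.two_two hf
    (aemeasurable_const (b := (1 : ℝ≥0∞)))
  simp only [Pi.mul_apply, mul_one, ENNReal.one_rpow, lintegral_const, one_mul] at h
  have h2 : ∀ x : ℝ≥0∞, (x ^ (1 / 2 : ℝ)) ^ 2 = x := by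
    intro x
    rw [← ENNReal.rpow_natCast, ← ENNReal.rpow_mul]
    norm_num
  calc (∫⁻ x, f x ∂μ) ^ 2 ≤ ((∫⁻ a, f a ^ (2 : ℝ) ∂μ) ^ (1 / 2 : ℝ) * μ univ ^ (1 / 2 : ℝ)) ^ 2 :=
        pow_le_pow_left₀ zero_le h 2
    _ = (∫⁻ a, f a ^ (2 : ℝ) ∂μ) * μ univ := by rw [mul_pow, h2, h2]
    _ = μ univ * ∫⁻ x, f x ^ 2 ∂μ := by
        rw [mul_comm]
        congr 1
        refine lintegral_congr fun x => ?_
        rw [← ENNReal.rpow_natCast]; norm_num

private theorem Cir_circ (a : ℂ) : Continuous (fun p : ℝ × ℝ => circleMap a p.1 p.2) := by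
  unfold circleMap
  fun_prop

private theorem Cir_polar {ρ : ℂ → ℝ≥0∞} (hρ : Measurable ρ) (a : ℂ) (δ : ℝ) :
    ∫⁻ r in Ioo 0 δ, ENNReal.ofReal r * ∫⁻ θ in Ioo (-π) π, ρ (circleMap a r θ) ^ 2 ≤
      ∫⁻ z in ball a δ, ρ z ^ 2 := by
  have hF : Measurable
      (fun p : ℝ × ℝ => ENNReal.ofReal p.1 * ρ (circleMap a p.1 p.2) ^ 2) :=
    (ENNReal.measurable_ofReal.comp measurable_fst).mul
      ((hρ.comp (Cir_circ a).measurable).pow_const 2)
  calc ∫⁻ r in Ioo 0 δ, ENNReal.ofReal r * ∫⁻ θ in Ioo (-π) π, ρ (circleMap a r θ) ^ 2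
      = ∫⁻ r in Ioo 0 δ, ∫⁻ θ in Ioo (-π) π,
          ENNReal.ofReal r * ρ (circleMap a r θ) ^ 2 := by
        refine lintegral_congr fun r => ?_
        rw [lintegral_const_mul]
        exact (hρ.comp (continuous_circleMap a r).measurable).pow_const 2
    _ = ∫⁻ p in Ioo 0 δ ×ˢ Ioo (-π) π,
          ENNReal.ofReal p.1 * ρ (circleMap a p.1 p.2) ^ 2 := by
        rw [Measure.volume_eq_prod, ← Measure.prod_restrict, lintegral_prod _ hF.aemeasurable]
    _ ≤ ∫⁻ p in polarCoord.target, ENNReal.ofReal p.1 •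
          ((ball a δ).indicator (fun z => ρ z ^ 2)) (a + Complex.polarCoord.symm p) := by
        rw [← lintegral_indicator (measurableSet_Ioo.prod measurableSet_Ioo),
          ← lintegral_indicator polarCoord.open_target.measurableSet]
        refine lintegral_mono fun p => ?_
        by_cases hp : p ∈ Ioo 0 δ ×ˢ Ioo (-π) π
        · have hp' : p ∈ polarCoord.target := by
            rw [polarCoord_target]
            exact ⟨hp.1.1, hp.2⟩
          have e : a + Complex.polarCoord.symm p = circleMap a p.1 p.2 := by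
            rw [Complex.polarCoord_symm_apply, circleMap, Complex.exp_mul_I]
            push_cast
            ring
          have hb : circleMap a p.1 p.2 ∈ ball a δ := by
            rw [mem_ball, Complex.dist_eq, circleMap_sub_center, norm_circleMap_zero,
              abs_of_pos hp.1.1]
            exact hp.1.2
          rw [indicator_of_mem hp, indicator_of_mem hp', e, indicator_of_mem hb, smul_eq_mul]
        · rw [indicator_of_notMem hp]
          exact zero_le
    _ = ∫⁻ z, ((ball a δ).indicator (fun z => ρ z ^ 2)) (a + z) :=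
        Complex.lintegral_comp_polarCoord_symm
          fun z => ((ball a δ).indicator (fun z => ρ z ^ 2)) (a + z)
    _ = ∫⁻ z, ((ball a δ).indicator (fun z => ρ z ^ 2)) z :=
        lintegral_add_left_eq_self _ _
    _ = ∫⁻ z in ball a δ, ρ z ^ 2 := lintegral_indicator measurableSet_ball _

private theorem Cir_circle {ρ : ℂ → ℝ≥0∞} (hρ : Measurable ρ)
    (hfin : ∀ R : ℝ, ∫⁻ z in ball 0 R, ρ z ^ 2 < ∞) {Γ : Set ℂ} {a : ℂ} (hg : Good Γ a) {ε δ : ℝ}
    (hε : 0 < ε) (hδ : 0 < δ) :
    ∃ r : ℝ, 0 < r ∧ r < δ ∧ (Γ ∩ sphere a r).Countable ∧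
      ENNReal.ofReal r * ∫⁻ θ in Ioo (-π) π, ρ (circleMap a r θ) ≤ ENNReal.ofReal ε := by
  by_contra hno
  push Not at hno
  obtain ⟨M, hM⟩ : ∃ M : ℝ → ℝ≥0∞,
      ∀ r, M r = ∫⁻ θ in Ioo (-π) π, ρ (circleMap a r θ) ^ 2 := ⟨_, fun _ => rfl⟩
  have hMm : Measurable M := by
    have h1 : Measurable (fun p : ℝ × ℝ => ρ (circleMap a p.1 p.2) ^ 2) :=
      (hρ.comp (Cir_circ a).measurable).pow_const 2
    have h2 := h1.lintegral_prod_right' (ν := volume.restrict (Ioo (-π) π))
    have h3 : M = fun r => ∫⁻ θ in Ioo (-π) π, ρ (circleMap a r θ) ^ 2 := funext hM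
    rw [h3]
    exact h2
  have hε0 : ENNReal.ofReal ε ^ 2 ≠ 0 := pow_ne_zero 2 (ENNReal.ofReal_pos.2 hε).ne'
  have hεt : ENNReal.ofReal ε ^ 2 ≠ ∞ := ENNReal.pow_ne_top ENNReal.ofReal_ne_top
  obtain ⟨T, hTd⟩ : ∃ T : Set ℝ, T = {r | ENNReal.ofReal r⁻¹ ≤ (ENNReal.ofReal ε ^ 2)⁻¹ *
      ENNReal.ofReal (2 * π) * (ENNReal.ofReal r * M r)} ∩ Ioo 0 δ := ⟨_, rfl⟩
  have hT : MeasurableSet T := by
    rw [hTd]
    refine (measurableSet_le ?_ ?_).inter measurableSet_Ioo
    · exact ENNReal.measurable_ofReal.comp measurable_inv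
    · exact (ENNReal.measurable_ofReal.mul hMm).const_mul _
  have hST : {r : ℝ | 0 < r ∧ r < δ ∧ (Γ ∩ sphere a r).Countable} ⊆ T := by
    rintro r ⟨h0, h1, h2⟩
    rw [hTd]
    refine ⟨?_, h0, h1⟩
    have h3 := (hno r h0 h1 h2).le
    have h4 : Measurable (fun θ : ℝ => ρ (circleMap a r θ)) :=
      hρ.comp (continuous_circleMap a r).measurable
    have h5 := Cir_cs (volume.restrict (Ioo (-π) π)) h4.aemeasurable
    rw [Measure.restrict_apply_univ, Real.volume_Ioo, ← hM r,
      show π - -π = 2 * π by ring] at h5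
    have h6 : ENNReal.ofReal ε ^ 2 ≤ ENNReal.ofReal r ^ 2 * (ENNReal.ofReal (2 * π) * M r) := by
      refine (pow_le_pow_left₀ zero_le h3 2).trans ?_
      rw [mul_pow]
      exact mul_le_mul' le_rfl h5
    have h7 : ENNReal.ofReal r * ENNReal.ofReal r⁻¹ = 1 := by
      rw [← ENNReal.ofReal_mul h0.le, mul_inv_cancel₀ h0.ne', ENNReal.ofReal_one]
    show ENNReal.ofReal r⁻¹ ≤ _
    calc ENNReal.ofReal r⁻¹ = (ENNReal.ofReal ε ^ 2)⁻¹ *
          (ENNReal.ofReal ε ^ 2 * ENNReal.ofReal r⁻¹) := by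
          rw [← mul_assoc, ENNReal.inv_mul_cancel hε0 hεt, one_mul]
      _ ≤ (ENNReal.ofReal ε ^ 2)⁻¹ * (ENNReal.ofReal r ^ 2 * (ENNReal.ofReal (2 * π) * M r) *
            ENNReal.ofReal r⁻¹) := mul_le_mul' le_rfl (mul_le_mul' h6 le_rfl)
      _ = (ENNReal.ofReal ε ^ 2)⁻¹ * ENNReal.ofReal (2 * π) * (ENNReal.ofReal r * M r) *
            (ENNReal.ofReal r * ENNReal.ofReal r⁻¹) := by ring
      _ = _ := by rw [h7, mul_one]
  have hfin2 : ∫⁻ z in ball a δ, ρ z ^ 2 < ∞ := by
    refine lt_of_le_of_lt (lintegral_mono_set fun z hz => ?_) (hfin (‖a‖ + δ))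
    rw [mem_ball_zero_iff]
    rw [mem_ball, dist_eq_norm] at hz
    calc ‖z‖ = ‖a + (z - a)‖ := by rw [add_sub_cancel]
      _ ≤ ‖a‖ + ‖z - a‖ := norm_add_le _ _
      _ < ‖a‖ + δ := by linarith
  have hCt : (ENNReal.ofReal ε ^ 2)⁻¹ * ENNReal.ofReal (2 * π) ≠ ∞ :=
    ENNReal.mul_ne_top (ENNReal.inv_ne_top.2 hε0) ENNReal.ofReal_ne_top
  have key : ∫⁻ r in {r : ℝ | 0 < r ∧ r < δ ∧ (Γ ∩ sphere a r).Countable},
      ENNReal.ofReal r⁻¹ < ∞ := by
    calc ∫⁻ r in {r : ℝ | 0 < r ∧ r < δ ∧ (Γ ∩ sphere a r).Countable}, ENNReal.ofReal r⁻¹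
        ≤ ∫⁻ r in T, ENNReal.ofReal r⁻¹ := lintegral_mono_set hST
      _ ≤ ∫⁻ r in T, (ENNReal.ofReal ε ^ 2)⁻¹ * ENNReal.ofReal (2 * π) *
            (ENNReal.ofReal r * M r) := by
          refine setLIntegral_mono' hT fun r hr => ?_
          rw [hTd] at hr
          exact hr.1
      _ ≤ ∫⁻ r in Ioo 0 δ, (ENNReal.ofReal ε ^ 2)⁻¹ * ENNReal.ofReal (2 * π) *
            (ENNReal.ofReal r * M r) := by
          refine lintegral_mono_set ?_
          rw [hTd]
          exact inter_subset_right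
      _ = (ENNReal.ofReal ε ^ 2)⁻¹ * ENNReal.ofReal (2 * π) *
            ∫⁻ r in Ioo 0 δ, ENNReal.ofReal r * M r :=
          lintegral_const_mul _ (ENNReal.measurable_ofReal.mul hMm)
      _ ≤ (ENNReal.ofReal ε ^ 2)⁻¹ * ENNReal.ofReal (2 * π) *
            ∫⁻ z in ball a δ, ρ z ^ 2 := by
          refine mul_le_mul' le_rfl (le_trans (le_of_eq ?_) (Cir_polar hρ a δ))
          refine lintegral_congr fun r => ?_
          rw [hM]
      _ < ∞ := ENNReal.mul_lt_top hCt.lt_top hfin2
  rw [hg δ hδ] at key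
  exact lt_irrefl _ key

private theorem Cir_arg (p z : ℂ) : circleMap p ‖z - p‖ (z - p).arg = z := by
  rw [circleMap, Complex.norm_mul_exp_arg_mul_I, add_sub_cancel]

private theorem Cir_comp {p : ℂ} {r : ℝ} (hr : 0 < r) {S : Set ℂ} (hS : sphere p r ⊆ S)
    (hp : p ∉ S) : Bornology.IsBounded (connectedComponentIn Sᶜ p) := by
  refine (isBounded_ball (x := p) (r := r)).subset ?_
  refine IsPreconnected.subset_left_of_subset_union (v := (closedBall p r)ᶜ) isOpen_ball
    isClosed_closedBall.isOpen_compl ?_ ?_ ⟨p, ?_, mem_ball_self hr⟩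
    isPreconnected_connectedComponentIn
  · rw [disjoint_compl_right_iff_subset]
    exact ball_subset_closedBall
  · intro z hz
    have h1 : z ∈ Sᶜ := connectedComponentIn_subset _ _ hz
    rcases lt_trichotomy (dist z p) r with h | h | h
    · exact Or.inl h
    · exact absurd (hS h) h1
    · exact Or.inr fun h2 => absurd h (not_lt.2 h2)
  · exact mem_connectedComponentIn hp

private theorem Cir_subst {g : ℝ → ℝ≥0∞} :
    ∫⁻ θ in Ioo (-π) π, g θ = ∫⁻ t in Ioo (0 : ℝ) 1, ENNReal.ofReal (2 * π) * g (2 * π * t - π) := by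
  have hpi := Real.pi_pos
  have him : (fun t : ℝ => 2 * π * t - π) '' Ioo (0 : ℝ) 1 = Ioo (-π) π := by
    ext θ
    constructor
    · rintro ⟨t, ⟨h0, h1⟩, rfl⟩
      constructor
      · show -π < 2 * π * t - π
        nlinarith
      · show 2 * π * t - π < π
        nlinarith
    · rintro ⟨h0, h1⟩
      refine ⟨(θ + π) / (2 * π), ⟨?_, ?_⟩, ?_⟩
      · exact div_pos (by linarith) (by linarith)
      · rw [div_lt_one (by linarith)]
        linarith
      · show 2 * π * ((θ + π) / (2 * π)) - π = θ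
        field_simp
        ring
  have h1 := lintegral_image_eq_lintegral_abs_deriv_mul (s := Ioo (0 : ℝ) 1)
    (f := fun t : ℝ => 2 * π * t - π) (f' := fun _ => 2 * π) measurableSet_Ioo
    (fun x _ => by
      have h2 : HasDerivAt (fun t : ℝ => 2 * π * t - π) (2 * π * 1) x :=
        ((hasDerivAt_id x).const_mul (2 * π)).sub_const π
      rw [mul_one] at h2
      exact h2.hasDerivWithinAt)
    (fun x _ y _ h => by
      have h3 : 2 * π * x - π = 2 * π * y - π := h
      have h4 : 2 * π * x = 2 * π * y := by linarith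
      exact mul_left_cancel₀ (by positivity) h4) g
  rw [him] at h1
  rw [h1, abs_of_pos (by positivity : (0 : ℝ) < 2 * π)]

theorem loops_of_good {Γ : Set ℂ} {p : ℂ} (h : Good Γ p) : Loops Γ p := by
  intro ρ hρ hfin δ ε hδ hε
  obtain ⟨r, hr, hrδ, hcount, hle⟩ := Cir_circle hρ hfin h hε hδ
  have hpi := Real.pi_pos
  have hdist : ∀ t : ℝ, dist (circleMap p r (2 * π * t - π)) p = r := by
    intro t
    have h1 := circleMap_mem_sphere p hr.le (2 * π * t - π)
    exact h1
  have hder : ∀ t : ℝ, HasDerivAt (fun t : ℝ => circleMap p r (2 * π * t - π))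
      ((2 * π) • (circleMap 0 r (2 * π * t - π) * Complex.I)) t := by
    intro t
    have h2 : HasDerivAt (fun t : ℝ => 2 * π * t - π) (2 * π * 1) t :=
      ((hasDerivAt_id t).const_mul (2 * π)).sub_const π
    rw [mul_one] at h2
    exact (hasDerivAt_circleMap p r (2 * π * t - π)).scomp t h2
  refine ⟨fun t => circleMap p r (2 * π * t - π),
    fun t => (2 * π) • (circleMap 0 r (2 * π * t - π) * Complex.I), ?_, ?_, ?_, ?_, ?_, ?_⟩
  · exact fun t _ => (hder t).continuousAt.continuousWithinAt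
  · show circleMap p r (2 * π * 0 - π) = circleMap p r (2 * π * 1 - π)
    rw [← periodic_circleMap p r (2 * π * 0 - π)]
    congr 1
    ring
  · intro t _
    exact ⟨by rw [mem_ball, hdist t]; exact hrδ, circleMap_ne_center hr.ne'⟩
  · refine ⟨{t | t ∈ Ioo (0 : ℝ) 1 ∧ circleMap p r (2 * π * t - π) ∈ Γ}, ?_, ?_⟩
    · refine Set.countable_of_injective_of_countable_image
        (f := fun t : ℝ => circleMap p r (2 * π * t - π)) ?_ (hcount.mono ?_)
      · rintro x ⟨⟨hx0, hx1⟩, -⟩ y ⟨⟨hy0, hy1⟩, -⟩ hxy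
        have h3 := injOn_circleMap_of_abs_sub_le' (c := p) hr.ne' (a := -π) (b := π) (by linarith)
          (show 2 * π * x - π ∈ Ico (-π) π from ⟨by nlinarith, by nlinarith⟩)
          (show 2 * π * y - π ∈ Ico (-π) π from ⟨by nlinarith, by nlinarith⟩) hxy
        have h4 : 2 * π * x = 2 * π * y := by linarith
        exact mul_left_cancel₀ (by positivity) h4
      · rintro _ ⟨t, ⟨-, ht⟩, rfl⟩
        exact ⟨ht, hdist t⟩
    · rintro t ⟨ht, hT⟩
      exact ⟨fun h4 => hT ⟨ht, h4⟩, hder t⟩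
  · refine Cir_comp hr ?_ ?_
    · intro z hz
      have hz' : ‖z - p‖ = r := by
        rw [← dist_eq_norm]
        exact hz
      have h3 := Cir_arg p z
      rw [hz'] at h3
      have h4 := Complex.neg_pi_lt_arg (z - p)
      have h5 := Complex.arg_le_pi (z - p)
      refine ⟨((z - p).arg + π) / (2 * π), ⟨?_, ?_⟩, ?_⟩
      · exact div_nonneg (by linarith) (by linarith)
      · rw [div_le_one (by linarith)]
        linarith
      · show circleMap p r (2 * π * (((z - p).arg + π) / (2 * π)) - π) = z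
        have h6 : 2 * π * (((z - p).arg + π) / (2 * π)) - π = (z - p).arg := by
          field_simp
          ring
        rw [h6, h3]
    · rintro ⟨t, -, ht⟩
      exact circleMap_ne_center hr.ne' ht
  · refine le_trans (le_of_eq ?_) hle
    rw [Cir_subst, ← lintegral_const_mul]
    · refine lintegral_congr fun t => ?_
      have h3 : ‖(2 * π) • (circleMap 0 r (2 * π * t - π) * Complex.I)‖ₑ =
          ENNReal.ofReal r * ENNReal.ofReal (2 * π) := by
        have h5 : ‖(2 * π) • (circleMap 0 r (2 * π * t - π) * Complex.I)‖ = r * (2 * π) := by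
          rw [norm_smul, norm_mul (circleMap 0 r (2 * π * t - π)), Complex.norm_I, mul_one,
            norm_circleMap_zero, abs_of_pos hr,
            Real.norm_of_nonneg (by positivity : (0 : ℝ) ≤ 2 * π), mul_comm]
        rw [← ofReal_norm, h5, ENNReal.ofReal_mul hr.le]
      show ρ (circleMap p r (2 * π * t - π)) *
        ‖(2 * π) • (circleMap 0 r (2 * π * t - π) * Complex.I)‖ₑ = _
      rw [h3]
      ring
    · refine Measurable.const_mul (hρ.comp ?_) _
      exact (continuous_circleMap p r).measurable.comp (by fun_prop)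

end Pool.Agent.H.MP_4bdd60_an.LP
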