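import Pool.Agent.H.MP_4bdd60_an.A10
import Pool.Agent.H.MP_4bdd60_an.F4
import Pool.Agent.H.MP_4bdd60_an.F4a
import Pool.Agent.H.MP_4bdd60_an.H1
import Pool.Agent.H.MP_4bdd60_an.I1
import Pool.Agent.H.MP_4bdd60_an.LP.Lim3
import Pool.Agent.H.MP_4bdd60_an.UN.NV
import Pool.Agent.H.MP_4bdd60_an.UN.Asy
import Pool.Agent.H.MP_4bdd60_an.UN.Op
import Pool.Agent.H.MP_4bdd60_an.UN.Arcs

/-!
# MP_4bdd60_an, loops: the theorems
-/

set_option autoImplicit false

open Set Filter Topology Metric MeasureTheory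
open scoped ENNReal Real

namespace Pool.Agent.H.MP_4bdd60_an.LP

open UN

variable {K L : Set ℂ} {f : ℂ ≃ₜ ℂ} {k1 k2 : ℂ → ℂ}

/-- The function with the given form as differential. -/
theorem exists_F (hK : IsClosed K) (hL : IsClosed L) (hP : (K ∩ L).Finite)
    (hg : ∀ p ∈ K ∩ L, Loops (K ∪ L) p) (hf : DifferentiableOn ℂ f (K ∪ L)ᶜ) (hF : Form K L f k1 k2) :
    ∃ F : ℂ → ℂ, Continuous F ∧ ∀ z, z ∉ K ∩ L → IsPr K L f k1 k2 F z := by
  obtain ⟨hnK, hnL⟩ := nonvan hK hL hP hF hf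
  have hiso0 : ∀ z, ∃ R : ℝ, 0 < R ∧ ∀ w ∈ ball z R, w ≠ z → w ∉ K ∩ L := by
    intro z
    have h1 : IsClosed ((K ∩ L) \ {z}) := (hP.subset sdiff_subset).isClosed
    have h2 : ((K ∩ L) \ {z})ᶜ ∈ 𝓝 z := h1.isOpen_compl.mem_nhds fun h => h.2 rfl
    obtain ⟨R, hR, hRs⟩ := Metric.mem_nhds_iff.1 h2
    exact ⟨R, hR, fun w hw hwz hwP => hRs hw ⟨hwP, hwz⟩⟩
  have key : ∀ z, ∃ G : ℂ → ℂ, ContinuousAt G z ∧ (∀ᶠ w in 𝓝[≠] z, IsPr K L f k1 k2 G w) ∧
      (z ∉ K ∩ L → IsPr K L f k1 k2 G z) := by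
    intro z
    by_cases hz : z ∈ K ∩ L
    · obtain ⟨R, hR, hiso⟩ := hiso0 z
      obtain ⟨G, hG⟩ := mono hK hL hF hf hR hiso (hg z hz)
      obtain ⟨A, hA⟩ := lim_loop hK hL hF hnK hnL hR hiso (hg z hz) hG
      refine ⟨Function.update G z A, ?_, ?_, fun h => absurd hz h⟩
      · rw [continuousAt_iff_punctured_nhds, Function.update_self]
        refine hA.congr' ?_
        filter_upwards [self_mem_nhdsWithin] with w hw
        rw [Function.update_of_ne hw]
      · filter_upwards [self_mem_nhdsWithin, mem_nhdsWithin_of_mem_nhds (ball_mem_nhds z hR)] with w hw hwR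
        refine (hG w hwR hw).congr ?_
        filter_upwards [isOpen_compl_singleton.mem_nhds hw] with v hv
        rw [Function.update_of_ne hv]
    · obtain ⟨G, hG⟩ := loc_exists hK hL hF hf hz
      exact ⟨G, hG.self_of_nhds.continuousAt hz, hG.filter_mono nhdsWithin_le_nhds, fun _ => hG.self_of_nhds⟩
  choose S hS1 hS2 hS3 using key
  have hP' : ∀ z, ∀ᶠ w in 𝓝[≠] z, w ∉ K ∩ L := by
    intro z
    obtain ⟨R, hR, hiso⟩ := hiso0 z
    filter_upwards [self_mem_nhdsWithin, mem_nhdsWithin_of_mem_nhds (ball_mem_nhds z hR)] with w hw hwR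
    exact hiso w hwR hw
  have hself : ∀ z, z ∉ K ∩ L → ∀ᶠ w in 𝓝 z, IsPr K L f k1 k2 (S z) w := by
    intro z hz
    have h1 := hS2 z
    rw [eventually_nhdsWithin_iff] at h1
    filter_upwards [h1] with w hw
    by_cases hwz : w = z
    · rw [hwz]
      exact hS3 z hz
    · exact hw hwz
  obtain ⟨F, hFS⟩ := glob (S := S) (by
    intro z
    have h1 : ∀ᶠ z' in 𝓝[≠] z, ∃ c : ℂ, ∀ᶠ w in 𝓝 z', S z w = S z' w + c := by
      have h2 : ∀ᶠ z' in 𝓝[≠] z, ∀ᶠ w in 𝓝[≠] z, IsPr K L f k1 k2 (S z) w :=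
        Eventually.of_forall fun _ => hS2 z
      have h3 := hS2 z
      rw [eventually_nhdsWithin_iff, ← _root_.eventually_eventually_nhds] at h3
      have h4 : ∀ᶠ z' in 𝓝[≠] z, ∀ᶠ w in 𝓝 z', w ∈ ({z}ᶜ : Set ℂ) → IsPr K L f k1 k2 (S z) w :=
        h3.filter_mono nhdsWithin_le_nhds
      filter_upwards [h4, hP' z, self_mem_nhdsWithin] with z' hz1 hz2 hz3
      refine loc_unique hK hL hz2 ?_ (hself z' hz2)
      filter_upwards [hz1, isOpen_compl_singleton.mem_nhds hz3] with w hw hwz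
      exact hw hwz
    rw [eventually_nhdsWithin_iff] at h1
    filter_upwards [h1] with z' hz'
    by_cases hzz : z' = z
    · rw [hzz]
      exact ⟨0, Eventually.of_forall fun w => by rw [add_zero]⟩
    · exact hz' hzz)
  refine ⟨F, ?_, ?_⟩
  · rw [continuous_iff_continuousAt]
    intro z
    obtain ⟨c, hc⟩ := hFS z
    exact ((hS1 z).add continuousAt_const).congr (by
      filter_upwards [hc] with w hw
      exact hw.symm)
  · intro z hz
    obtain ⟨c, hc⟩ := hFS z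
    exact ((hS3 z hz).add_const c).congr hc

/-- A non-removable union has a non-removable part. -/
theorem union_rem (hK : IsCompact K) (hL : IsCompact L) (hP : (K ∩ L).Finite)
    (hg : ∀ p ∈ K ∩ L, Loops (K ∪ L) p) (f : ℂ ≃ₜ ℂ) (hf : DifferentiableOn ℂ f (K ∪ L)ᶜ)
    (hfn : ¬ Differentiable ℂ f) :
    (∃ g : ℂ ≃ₜ ℂ, DifferentiableOn ℂ g Kᶜ ∧ ¬ Differentiable ℂ g) ∨
      (∃ g : ℂ ≃ₜ ℂ, DifferentiableOn ℂ g Lᶜ ∧ ¬ Differentiable ℂ g) := by
  obtain ⟨k1, k2, hF⟩ := exists_form K L hK hL f hf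
  have hKc := hK.isClosed
  have hLc := hL.isClosed
  obtain ⟨hnK, hnL⟩ := nonvan hKc hLc hP hF hf
  obtain ⟨F, hFc, hFP⟩ := exists_F hKc hLc hP hg hf hF
  have hFK : ∀ z, z ∉ K → HasDerivAt F (k1 z) z := fun z hz => (hFP z fun h => hz h.1).1 hz
  have hFL : ∀ z, z ∉ L → HasDerivAt (fun v => F (f.symm v)) (k2 (f z)) (f z) := fun z hz =>
    (hFP z fun h => hz h.2).2 hz
  obtain ⟨C0, R0, hR0, hCR0⟩ := hF.inf
  obtain ⟨C, R, hCR⟩ := asy hR0 (fun z hz => hFK z (hCR0 z hz).1) (fun z hz => (hCR0 z hz).2.2)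
  -- behaviour at infinity
  have hprop : Tendsto F (cocompact ℂ) (cocompact ℂ) := by
    rw [← Metric.cobounded_eq_cocompact, ← comap_norm_atTop]
    refine tendsto_comap_iff.2 ?_
    refine tendsto_atTop.2 fun M => ?_
    have hev : ∀ᶠ z : ℂ in comap norm atTop, max R (M + C) < ‖z‖ :=
      tendsto_comap.eventually (eventually_gt_atTop _)
    filter_upwards [hev] with z hz
    have h1 := hCR z (lt_of_le_of_lt (le_max_left _ _) hz)
    have h2 : M + C < ‖z‖ := lt_of_le_of_lt (le_max_right _ _) hz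
    have h3 : ‖z‖ ≤ ‖F z‖ + ‖F z - z‖ := by
      have : z = F z - (F z - z) := by ring
      calc ‖z‖ = ‖F z - (F z - z)‖ := by rw [← this]
        _ ≤ _ := norm_sub_le _ _
    simp only [Function.comp]
    linarith
  have hinf : ∃ R : ℝ, InjOn F {z | R < ‖z‖} := by
    refine inj_inf (R := max R R0) (C := C) ?_ fun z hz => hCR z (lt_of_le_of_lt (le_max_left _ _) hz)
    intro z hz
    have hz' : max R R0 < ‖z‖ := by simpa using hz
    exact (hFK z (hCR0 z (lt_of_le_of_lt (le_max_right _ _) hz')).1).differentiableAt.differentiableWithinAt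
  -- the exceptional set
  have hfL : IsOpen (f '' Lᶜ) := f.isOpenMap _ hLc.isOpen_compl
  set Z1 : Set ℂ := {z | z ∈ Kᶜ ∧ k1 z = 0} with hZ1
  set Z2 : Set ℂ := {w | w ∈ f '' Lᶜ ∧ k2 w = 0} with hZ2
  have cZ1 : Z1.Countable := countable_zeros hKc.isOpen_compl hF.hol1 (fun z hz => hnK z hz)
  have cZ2 : Z2.Countable := countable_zeros hfL hF.hol2
    (by rintro _ ⟨z', hz', rfl⟩; exact hnL z' hz')
  set Z : Set ℂ := Z1 ∪ f.symm '' Z2 ∪ (K ∩ L) with hZ
  have cZ : Z.Countable := (cZ1.union (cZ2.image _)).union hP.countable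
  have hopen0 : ∀ z, z ∉ K ∩ L → ∀ N ∈ 𝓝 z, F '' N ∈ 𝓝 (F z) := by
    intro z hz
    refine open_pr hKc hLc hnK hnL hz ?_
    filter_upwards [(hKc.inter hLc).isOpen_compl.mem_nhds hz] with w hw
    exact hFP w hw
  have hloc : ∀ z, z ∉ Z → ∃ N ∈ 𝓝 z, InjOn F N := by
    intro z hz
    simp only [hZ, mem_union, not_or] at hz
    obtain ⟨⟨hz1, hz2⟩, hz3⟩ := hz
    by_cases hzK : z ∈ K
    · have hzL : z ∉ L := fun h => hz3 ⟨hzK, h⟩
      have hk : k2 (f z) ≠ 0 := fun e => hz2 ⟨f z, ⟨⟨z, hzL, rfl⟩, e⟩, by simp⟩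
      obtain ⟨N, hN, hinj⟩ := inj_at (F := fun w => F (f.symm w)) (k := k2) hfL
        (by rintro _ ⟨z', hz', rfl⟩; exact hFL z' hz') ⟨z, hzL, rfl⟩ hk
      refine ⟨f ⁻¹' N, f.continuous.continuousAt.preimage_mem_nhds hN, ?_⟩
      intro x hx y hy e
      have : f x = f y := hinj hx hy (by simpa using e)
      exact f.injective this
    · have hk : k1 z ≠ 0 := fun e => hz1 ⟨hzK, e⟩
      exact inj_at hKc.isOpen_compl (fun z hz => hFK z hz) hzK hk
  have hopen := open_exc hFc hP cZ hloc hopen0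
  obtain ⟨G, hG⟩ := homeo_of_charts F hFc 0 1 zero_ne_one hprop hinf Z cZ hloc fun z _ _ => hopen z
  have hGF : (G : ℂ → ℂ) = F := funext hG
  have hG1 : DifferentiableOn ℂ G Kᶜ := by
    rw [hGF]
    exact fun z hz => (hFK z hz).differentiableAt.differentiableWithinAt
  have hG2 : DifferentiableOn ℂ (fun w => G (f.symm w)) (f '' Lᶜ) := by
    rw [hGF]
    rintro _ ⟨z, hz, rfl⟩
    exact (hFL z hz).differentiableAt.differentiableWithinAt
  by_cases hGd : Differentiable ℂ G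
  · exact Or.inr ⟨f, endgame f G hLc hGd hG2, hfn⟩
  · exact Or.inl ⟨G, hG1, hGd⟩

/-- Jordan curves with two points round which small loops have extremal length zero. -/
theorem jordan (γ : Circle → ℂ) (hγ : Continuous γ) (hi : Function.Injective γ) {p q : ℂ}
    (hp : p ∈ range γ) (hq : q ∈ range γ) (hpq : p ≠ q) (gp : Loops (range γ) p) (gq : Loops (range γ) q)
    (f : ℂ ≃ₜ ℂ) (hf : DifferentiableOn ℂ f (range γ)ᶜ) (hfn : ¬ Differentiable ℂ f) :
    ∃ F : Set ℂ, F ⊆ range γ ∧ F ≠ range γ ∧ IsClosed F ∧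
      ∃ g : ℂ ≃ₜ ℂ, DifferentiableOn ℂ g Fᶜ ∧ ¬ Differentiable ℂ g := by
  obtain ⟨α, rfl⟩ := hp
  obtain ⟨β, rfl⟩ := hq
  obtain ⟨K, L, hK, hL, hKL, hKLi, hKn, hLn⟩ := arcs α β fun h => hpq (by rw [h])
  have cK : IsCompact (γ '' K) := hK.isCompact.image hγ
  have cL : IsCompact (γ '' L) := hL.isCompact.image hγ
  have hu : γ '' K ∪ γ '' L = range γ := by rw [← image_union, hKL, image_univ]
  have hint : γ '' K ∩ γ '' L = {γ α, γ β} := by rw [← image_inter hi, hKLi, image_pair]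
  have hne : ∀ A : Set Circle, A ≠ univ → γ '' A ≠ range γ := by
    intro A hA e
    refine hA ?_
    rw [← image_univ] at e
    exact hi.image_injective e
  rcases union_rem cK cL (by rw [hint]; exact toFinite _) (by
      rw [hint, hu]
      rintro x (rfl | rfl)
      · exact gp
      · exact gq) f (by rw [hu]; exact hf) hfn with h | h
  · exact ⟨γ '' K, image_subset_range _ _, hne K hKn, cK.isClosed, h⟩
  · exact ⟨γ '' L, image_subset_range _ _, hne L hLn, cL.isClosed, h⟩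

end Pool.Agent.H.MP_4bdd60_an.LP
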